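import Pool.Agent.H58.FL.Targets

/-!
# Row BRI of flb_modules: from a vanishing map on homology to a chain in the Rips complex (helper2)
-/

set_option autoImplicit false

open Topology

namespace Pool.Agent.H2.FL

open Pool.Agent.H58.FL Pool.Agent.H59 Pool.Agent.H48.FR

noncomputable section

lemma mapL_id' {X Y : Type} (n : ℕ) (f : X → Y) (g : Y → X) (h : ∀ x, g (f x) = x)
    (c : LL n X) : mapL n g (mapL n f c) = c := by
  unfold mapL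
  rw [Finsupp.lmapDomain_apply, Finsupp.lmapDomain_apply, ← Finsupp.mapDomain_comp]
  have h1 : ((fun v : Fin n → Y => g ∘ v) ∘ fun v : Fin n → X => f ∘ v) = id := by
    funext v i
    exact h (v i)
  rw [h1, Finsupp.mapDomain_id]

lemma bri_gen (hKIL : T_KIL) (hSML : T_SML) (hVTX : T_VTX) (hNBH : T_NBH) (hRPM : T_RPM)
    (κ : ℝ) (hκ0 : 0 ≤ κ) (hκ1 : κ ≤ 1) (n : ℕ) (ε : ℝ) (hε : 0 < ε) (N : ℤ) (d : ℕ)
    (hεκ : ε < Real.arccos (2 * κ - 1) / 4) (hK : KillsN N (d + 1) (kc (CPn n) ε hε))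
    (C : Ch ℤ (d + 2) (CPn n)) (hC : bd ℤ (d + 1) (CPn n) C = 0) :
    ∃ (k : ℕ) (b : LL (d + 3) (CPn n)), On (VR n κ) b ∧
      bdL (d + 2) (CPn n) b = N • vx (d + 2) (SdI (d + 2) k C) := by
  classical
  obtain ⟨B, hB⟩ := hKIL (CPn n) (UE (CPn n) ε) (kc (CPn n) ε hε) d N hK C hC
  obtain ⟨j, p, hp, hdist⟩ := hNBH (CPn n) ε hε
  obtain ⟨k, hk⟩ := hSML (UE (CPn n) ε) _ j (d + 3) B (Real.arccos (2 * κ - 1) / 2 - 2 * ε)
    (by linarith)
  refine ⟨k, mapL (d + 3) p (vx (d + 3) (SdI (d + 3) k B)), ?_, ?_⟩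
  · intro t ht
    have h1 : t ∈ Finset.image (fun v : Fin (d + 3) → UE (CPn n) ε => p ∘ v)
        (vx (d + 3) (SdI (d + 3) k B)).support := by
      apply Finsupp.mapDomain_support
      exact ht
    rw [Finset.mem_image] at h1
    obtain ⟨v, hv, rfl⟩ := h1
    have h2 : v ∈ Finset.image (fun σ : Smp (d + 3) (UE (CPn n) ε) => ⇑σ ∘ vtx (d + 3))
        (SdI (d + 3) k B).support := by
      apply Finsupp.mapDomain_support
      exact hv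
    rw [Finset.mem_image] at h2
    obtain ⟨σ, hσ, rfl⟩ := h2
    show ∀ x ∈ _, ∀ y ∈ _, Adj κ (rp x) (rp y)
    rintro _ ⟨i, rfl⟩ _ ⟨i', rfl⟩
    apply (hRPM n).2.2.2.1 κ _ _ hκ0 hκ1
    have h3 := hk k le_rfl σ hσ i i'
    have h4 := hdist (σ (vtx (d + 3) i)) (σ (vtx (d + 3) i'))
    show dist (p (σ (vtx (d + 3) i))) (p (σ (vtx (d + 3) i'))) < _
    linarith
  · rw [bdL_mapL, (hVTX (UE (CPn n) ε) (UE (CPn n) ε) (d + 2)).1, bd_SdI, hB, map_smul, map_smul,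
      map_smul, ← pf_SdI, (hVTX (CPn n) (UE (CPn n) ε) (d + 2)).2.1,
      mapL_id' (d + 2) (⇑(kc (CPn n) ε hε)) p hp]

theorem pf_BRI (hKIL : T_KIL) (hSML : T_SML) (hVTX : T_VTX) (hNBH : T_NBH) (hRPM : T_RPM) :
    T_BRI := by
  intro κ hκ0 hκ1 n ε hε N hn hεκ hK C hC
  obtain ⟨n', rfl⟩ : ∃ n', n = n' + 1 := ⟨n - 1, by omega⟩
  exact bri_gen hKIL hSML hVTX hNBH hRPM κ hκ0 hκ1 (n' + 1) ε hε N (2 * n' + 1) hεκ hK C hC

end

end Pool.Agent.H2.FL
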