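import Pool.Agent.H58.FL.TargetsB
import Pool.Agent.H42.FR.SP

/-!
# Multiplication of polynomials: board `flc_modules`, row `MLP`
-/

set_option autoImplicit false

open Topology

namespace Pool.Agent.H2.FL

open Pool.Agent.H58.FL Pool.Agent.H59 Pool.Agent.H48.FR

theorem po_mu {j : ℕ} (u : Fin j → Fin 2 → ℂ) :
    po (mu j u) = ∏ l : Fin j, (Polynomial.C (u l 0) + Polynomial.C (u l 1) * Polynomial.X) := by
  ext k
  rw [po_coeff]
  split_ifs with h
  · rfl
  · symm
    have hd : (∏ l : Fin j, (Polynomial.C (u l 0) + Polynomial.C (u l 1) * Polynomial.X)).natDegree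
        ≤ j := by
      refine (Polynomial.natDegree_prod_le _ _).trans ?_
      refine (Finset.sum_le_card_nsmul _ _ 1 fun l _ => ?_).trans ?_
      · show (Polynomial.C (u l 0) + Polynomial.C (u l 1) * Polynomial.X).natDegree ≤ 1
        rw [add_comm]
        exact Polynomial.natDegree_linear_le
      · simp
    exact Polynomial.coeff_eq_zero_of_natDegree_lt (by omega)

theorem po_smul' {j : ℕ} (c : ℂ) (p : Fin (j + 1) → ℂ) : po (c • p) = Polynomial.C c * po p := by
  ext k
  rw [Polynomial.coeff_C_mul, po_coeff, po_coeff]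
  split_ifs
  · rfl
  · simp

theorem po_add' {j : ℕ} (p p' : Fin (j + 1) → ℂ) : po (p + p') = po p + po p' := by
  ext k
  rw [Polynomial.coeff_add, po_coeff, po_coeff, po_coeff]
  split_ifs
  · rfl
  · simp

theorem po_cont (j k : ℕ) : Continuous fun p : Fin (j + 1) → ℂ => (po p).coeff k := by
  simp only [po_coeff]
  split_ifs with h
  · exact continuous_apply _
  · exact continuous_const

theorem ml_smul' {j l : ℕ} (c d : ℂ) (p : Fin (j + 1) → ℂ) (w : Fin (l + 1) → ℂ) :
    ml (c • p) (d • w) = (c * d) • ml p w := by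
  funext k
  show (po (c • p) * po (d • w)).coeff (k : ℕ) = (c * d) * (po p * po w).coeff (k : ℕ)
  rw [po_smul', po_smul', ← Polynomial.coeff_C_mul]
  congr 1
  rw [Polynomial.C_mul]
  ring

theorem mP_mk {j l : ℕ} (p : Fin (j + 1) → ℂ) (w : Fin (l + 1) → ℂ) (hp : p ≠ 0) (hw : w ≠ 0) :
    mP (mk p hp) (mk w hw) = mk (ml p w) (ml_ne hp hw) := by
  obtain ⟨a, ha, h1⟩ := PP.exists_rep p hp
  obtain ⟨b, hb, h2⟩ := PP.exists_rep w hw
  refine (PP.mk_eq_iff _ _).2 ⟨a * b, mul_ne_zero ha hb, ?_⟩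
  rw [← ml_smul']
  have e1 : (mk p hp).rep = a • p := h1
  have e2 : (mk w hw).rep = b • w := h2
  rw [e1, e2]

theorem ml_cont {A : Type} [TopologicalSpace A] {j l : ℕ} {f : A → Fin (j + 1) → ℂ}
    {g : A → Fin (l + 1) → ℂ} (hf : Continuous f) (hg : Continuous g) :
    Continuous fun a => ml (f a) (g a) := by
  refine continuous_pi fun k => ?_
  show Continuous fun a => (po (f a) * po (g a)).coeff (k : ℕ)
  simp only [Polynomial.coeff_mul]
  refine continuous_finsetSum _ fun x _ => ?_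
  exact ((po_cont j x.1).comp hf).mul ((po_cont l x.2).comp hg)

theorem pf_MLP (hCMK : T_CMK) : T_MLP := by
  intro j l
  refine ⟨?_, fun c d p w => ml_smul' c d p w, ?_, ?_, fun p w hp hw => mP_mk p w hp hw, ?_⟩
  · intro u
    funext k
    show (∏ i : Fin (j + l), (Polynomial.C (u i 0) +
      Polynomial.C (u i 1) * Polynomial.X)).coeff (k : ℕ) =
      (po (mu j fun i => u (Fin.castAdd l i)) * po (mu l fun i => u (Fin.natAdd j i))).coeff (k : ℕ)
    rw [po_mu, po_mu, Fin.prod_univ_add]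
  · intro p p' w
    funext k
    show (po (p + p') * po w).coeff (k : ℕ) = (po p * po w).coeff (k : ℕ) +
      (po p' * po w).coeff (k : ℕ)
    rw [po_add', add_mul, Polynomial.coeff_add]
  · exact ml_cont continuous_fst continuous_snd
  · obtain ⟨c1, -, t1, s1⟩ := Pool.Agent.H42.FR.sp ℂ l
    obtain ⟨c2, -, t2, s2⟩ := Pool.Agent.H42.FR.sp ℂ j
    have hf : Continuous fun z : Sph ℂ l × Sph ℂ j => ((prS z.1, prS z.2) : CPn l × CPn j) :=
      (t1.comp continuous_fst).prodMk (t2.comp continuous_snd)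
    have hs : Function.Surjective
        fun z : Sph ℂ l × Sph ℂ j => ((prS z.1, prS z.2) : CPn l × CPn j) := by
      rintro ⟨a, b⟩
      obtain ⟨x, hx⟩ := s1 a
      obtain ⟨y, hy⟩ := s2 b
      exact ⟨(x, y), Prod.ext hx hy⟩
    have hq : IsQuotientMap fun z : Sph ℂ l × Sph ℂ j => ((prS z.1, prS z.2) : CPn l × CPn j) :=
      (hf.isClosedMap).isQuotientMap hf hs
    rw [hq.continuous_iff]
    have he : ((fun q : CPn l × CPn j => mP q.2 q.1) ∘
        fun z : Sph ℂ l × Sph ℂ j => ((prS z.1, prS z.2) : CPn l × CPn j)) =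
        fun z : Sph ℂ l × Sph ℂ j => mk (ml z.2.1 z.1.1) (ml_ne (sph_ne z.2) (sph_ne z.1)) := by
      funext z
      have e1 : (prS z.2 : CPn j) = mk z.2.1 (sph_ne z.2) := rfl
      have e2 : (prS z.1 : CPn l) = mk z.1.1 (sph_ne z.1) := rfl
      rw [Function.comp_apply]
      dsimp only
      rw [e1, e2]
      exact mP_mk z.2.1 z.1.1 (sph_ne z.2) (sph_ne z.1)
    rw [he]
    have h1 : Continuous fun z : Sph ℂ l × Sph ℂ j => (z.2 : Fin (j + 1) → ℂ) :=
      continuous_subtype_val.comp continuous_snd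
    have h2 : Continuous fun z : Sph ℂ l × Sph ℂ j => (z.1 : Fin (l + 1) → ℂ) :=
      continuous_subtype_val.comp continuous_fst
    have hv : Continuous fun z : Sph ℂ l × Sph ℂ j =>
      ml (z.2 : Fin (j + 1) → ℂ) (z.1 : Fin (l + 1) → ℂ) := ml_cont h1 h2
    exact hCMK (Sph ℂ l × Sph ℂ j) (j + l) (fun z => ml z.2.1 z.1.1)
      (fun z => ml_ne (sph_ne z.2) (sph_ne z.1)) hv

end Pool.Agent.H2.FL
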